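import Pool.Agent.P.MP_3ae97d_gt.HM.All

/-! Approximation of arc collapses by homeomorphisms forces homogeneity. -/

set_option autoImplicit false

namespace Pool.Agent.Results.MP_3ae97d_gt.Homogeneous

open Pool.Agent.P.MP_3ae97d_gt.HM

theorem result (X : Type) [TopologicalSpace X] (h1 : ENR X) (h2 : DDP X) (h3 : ArcApprox X)
    (O : Set X) (hO : IsOpen O) (hc : IsPreconnected O) (x y : X) (hx : x ∈ O) (hy : y ∈ O) :
    ∃ h : X ≃ₜ X, (∀ z, z ∉ O → h z = z) ∧ h x = y :=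
  q_MAIN X O x y ⟨h1, h2, h3⟩ hO hc hx hy

end Pool.Agent.Results.MP_3ae97d_gt.Homogeneous
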